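import Pool.Agent.WittPrimes.Main

/-!
# Prime ideals of the enveloping algebras of the Witt algebra and of its positive part

Let `k` be a field of characteristic zero and let `W` be the Witt algebra over `k`: the Lie algebra
with basis `e_n`, `n ∈ ℤ`, and bracket `[e_m, e_n] = (n - m) e_{m+n}` (that `Der(k[t,t⁻¹])` is such a
Lie algebra, with `e_n = t^{n+1} d/dt`, and that the `e_n` with `n ≥ -1` span the derivations which
map `k[t]` to itself, is checked in `Pool.Agent.WittPrimes.Der`).  The restriction map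
`r(P) = P ∩ U(W_{≥ -1})`, written as the preimage along the canonical map `U(W_{≥ -1}) → U(W)`, sends
prime ideals of `U(W)` to prime ideals of `U(W_{≥ -1})`, and it is a bijection between the two sets
of prime ideals which preserves and reflects inclusions.  This answers Q2 positively.
-/

namespace Pool.Agent.Results.MP_fc828e_al.PrimeRestriction

open Pool.WittPrimes

/-- the restriction of a two-sided ideal of `U(W)` to `U(S)`, `S` a Lie subalgebra of `W` -/
noncomputable def restrict (k : Type*) [Field k] {W : Type*} [LieRing W] [LieAlgebra k W]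
    (S : LieSubalgebra k W) (I : TwoSidedIdeal (UniversalEnvelopingAlgebra k W)) :
    TwoSidedIdeal (UniversalEnvelopingAlgebra k S) :=
  I.comap (iotaU S)

/-- **Main theorem.** -/
theorem result (k : Type*) [Field k] [CharZero k] (W : Type*) [LieRing W] [LieAlgebra k W]
    (e : Module.Basis ℤ k W) (he : ∀ m n : ℤ, ⁅e m, e n⁆ = ((n : k) - m) • e (m + n))
    (S : LieSubalgebra k W) (hS : S.toSubmodule = Submodule.span k (e '' {n | -1 ≤ n})) :
    Function.Injective (iotaU S) ∧
    Set.BijOn (restrict k S) {P | IsPrimeI P} {Q | IsPrimeI Q} ∧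
    ∀ P₁ P₂ : TwoSidedIdeal (UniversalEnvelopingAlgebra k W), IsPrimeI P₁ → IsPrimeI P₂ →
      (restrict k S P₁ ≤ restrict k S P₂ ↔ P₁ ≤ P₂) := by
  obtain ⟨h0, h1, h2⟩ := main ⟨e, he⟩ S hS
  exact ⟨h0, h1, fun P₁ P₂ hP₁ hP₂ =>
    ⟨h2 P₁ P₂ hP₁ hP₂, fun h => (TwoSidedIdeal.comap (iotaU S)).monotone h⟩⟩

end Pool.Agent.Results.MP_fc828e_al.PrimeRestriction
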