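import Pool.Agent.PRI98.Asm2
import Pool.Agent.LA53.Proper
import Pool.Agent.LA53.MaxTwo
import Pool.Agent.R12.LocBij
import Pool.Agent.PRI65.Soc

/-!
# Primitive ideals of `U(W_{≥ -1})` come from primitive ideals of `U(W)`

Let `k` be a field of characteristic zero and let `W` be the Witt algebra over `k`: the Lie algebra
with basis `e_n`, `n ∈ ℤ`, and bracket `[e_m, e_n] = (n - m) e_{m+n}`; let `S` be its subalgebra
spanned by the `e_n` with `n ≥ -1`.  Restriction of an ideal of `U(W)` to `U(S)` is written as the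
preimage along the canonical map `U(S) → U(W)` (which is injective).

* If `P` is a prime ideal of `U(W)` with primitive restriction, then `P` is primitive.
* Every primitive ideal of `U(S)` is the restriction of exactly one prime ideal of `U(W)`, and that
  ideal is primitive.  So restriction is a bijection from the set of the primitive ideals of `U(W)`
  with primitive restriction onto the set of all primitive ideals of `U(S)`.
* Restriction is compatible with the hull-kernel topologies in both directions: a prime ideal `P`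
  contains the intersection of a set of prime ideals iff its restriction contains the intersection
  of their restrictions.
* Restriction is a bijection from the local primitive ideals of `U(W)` onto the local primitive
  ideals of `U(S)`: the annihilators of the simple modules with a nonzero vector killed by all
  `f e_n` (`n ∈ ℤ`, respectively `n ≥ -1`), for some nonzero polynomial `f`.
* Restriction is a bijection from the maximal two-sided ideals of `U(W)` onto the maximal two-sided
  ideals of `U(S)`; all of these ideals are primitive.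
* If a simple `U(W)`-module with nonzero annihilator `P` has a simple `U(S)`-submodule, then the
  annihilator of that submodule is the restriction of `P`.
-/

namespace Pool.Agent.Results.MP_fc828e_al.PrimitiveLift

open Pool.WittPrimes

/-- the restriction of a two-sided ideal of `U(W)` to `U(S)`, `S` a Lie subalgebra of `W` -/
noncomputable def restrict (k : Type*) [Field k] {W : Type*} [LieRing W] [LieAlgebra k W]
    (S : LieSubalgebra k W) (I : TwoSidedIdeal (UniversalEnvelopingAlgebra k W)) :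
    TwoSidedIdeal (UniversalEnvelopingAlgebra k S) :=
  I.comap (iotaU S)

/-- A two-sided ideal `P` of a ring `A` is primitive if it is the annihilator of a simple left
module, i.e. `P = {a | a A ⊆ M}`, the annihilator of `A / M`, for some maximal left ideal `M`. -/
def IsPrimitive {A : Type*} [Ring A] (P : TwoSidedIdeal A) : Prop :=
  ∃ M : Ideal A, M.IsMaximal ∧ ∀ a, a ∈ P ↔ ∀ x, a * x ∈ M

theorem IsPrimitive.prime {A : Type*} [Ring A] {P : TwoSidedIdeal A} (h : IsPrimitive P) :
    IsPrimeI P := by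
  obtain ⟨M, hM, hP⟩ := h
  have h1 : P = PRI65.annI M := by
    ext a
    rw [PRI65.mem_annI, hP]
  rw [h1]
  exact PRI65.annI_prime M hM

theorem primitive_of_coatom {A : Type*} [Ring A] {P : TwoSidedIdeal A} (h : IsCoatom P) :
    IsPrimitive P := by
  obtain ⟨N, hN, hle⟩ := LA53.exists_annI P h.1
  have h1 : P = PRI65.annI N :=
    (eq_or_lt_of_le hle).resolve_right fun hlt => (PRI65.annI_prime N hN).1 (h.2 _ hlt)
  exact ⟨N, hN, fun a => by rw [h1, PRI65.mem_annI]⟩

/-- `P` is a local primitive ideal of `U(W)`: the annihilator of a simple module `U(W) / M` such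
that, for some nonzero polynomial `f`, `M` contains `f e_n = ∑ i, f_i e_{n+i}` for all `n`. -/
def IsLocal {k : Type*} [Field k] {W : Type*} [LieRing W] [LieAlgebra k W]
    (e : Module.Basis ℤ k W) (P : TwoSidedIdeal (UniversalEnvelopingAlgebra k W)) : Prop :=
  ∃ M : Ideal (UniversalEnvelopingAlgebra k W), M.IsMaximal ∧ (∀ a, a ∈ P ↔ ∀ x, a * x ∈ M) ∧
    ∃ f : Polynomial k, f ≠ 0 ∧
      ∀ n : ℤ, UniversalEnvelopingAlgebra.ι k (f.sum fun i a => a • e (n + i)) ∈ M

/-- `Q` is a local primitive ideal of `U(S)`: the annihilator of a simple module `U(S) / M` such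
that, for some nonzero polynomial `f`, `M` contains `f e_n = ∑ i, f_i e_{n+i}` for all `n ≥ -1`. -/
def IsLocalS {k : Type*} [Field k] {W : Type*} [LieRing W] [LieAlgebra k W]
    (e : Module.Basis ℤ k W) (S : LieSubalgebra k W)
    (Q : TwoSidedIdeal (UniversalEnvelopingAlgebra k S)) : Prop :=
  ∃ M : Ideal (UniversalEnvelopingAlgebra k S), M.IsMaximal ∧ (∀ a, a ∈ Q ↔ ∀ x, a * x ∈ M) ∧
    ∃ f : Polynomial k, f ≠ 0 ∧ ∀ (n : ℤ) (s : S), -1 ≤ n →
      (s : W) = (f.sum fun i a => a • e (n + i)) → UniversalEnvelopingAlgebra.ι k s ∈ M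

theorem ev_eq {k : Type*} [Field k] {W : Type*} [LieRing W] [LieAlgebra k W]
    (D : WittData k W) (n : ℤ) (f : Polynomial k) :
    R12.ev D n f = UniversalEnvelopingAlgebra.ι k (f.sum fun i a => a • D.b (n + i)) := by
  rw [R12.ev_sum, Polynomial.sum_def, Polynomial.sum_def, map_sum]
  refine Finset.sum_congr rfl fun i _ => ?_
  rw [map_smul]

/-- **Main theorem.** -/
theorem result (k : Type*) [Field k] [CharZero k] (W : Type*) [LieRing W]
    [LieAlgebra k W] (e : Module.Basis ℤ k W)
    (he : ∀ m n : ℤ, ⁅e m, e n⁆ = ((n : k) - m) • e (m + n))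
    (S : LieSubalgebra k W) (hS : S.toSubmodule = Submodule.span k (e '' {n | -1 ≤ n})) :
    (∀ P : TwoSidedIdeal (UniversalEnvelopingAlgebra k W), IsPrimeI P →
      IsPrimitive (restrict k S P) → IsPrimitive P) ∧
    (∀ Q : TwoSidedIdeal (UniversalEnvelopingAlgebra k S), IsPrimitive Q →
      (∃ P, IsPrimitive P ∧ restrict k S P = Q) ∧
      ∀ P₁ P₂, IsPrimeI P₁ → IsPrimeI P₂ → restrict k S P₁ = Q → restrict k S P₂ = Q →
        P₁ = P₂) ∧
    Set.BijOn (restrict k S) {P | IsPrimitive P ∧ IsPrimitive (restrict k S P)}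
      {Q | IsPrimitive Q} ∧
    (∀ (F : Set (TwoSidedIdeal (UniversalEnvelopingAlgebra k W)))
      (P : TwoSidedIdeal (UniversalEnvelopingAlgebra k W)), (∀ P' ∈ F, IsPrimeI P') → IsPrimeI P →
      ((∀ u, (∀ P' ∈ F, u ∈ P') → u ∈ P) ↔
        ∀ w, (∀ P' ∈ F, w ∈ restrict k S P') → w ∈ restrict k S P)) ∧
    Set.BijOn (restrict k S) {P | IsLocal e P} {Q | IsLocalS e S Q} ∧
    Set.BijOn (restrict k S) {P | IsCoatom P} {Q | IsCoatom Q} ∧
    (∀ P : TwoSidedIdeal (UniversalEnvelopingAlgebra k W), IsCoatom P →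
      IsPrimitive (restrict k S P)) ∧
    ∀ (P : TwoSidedIdeal (UniversalEnvelopingAlgebra k W))
      (M : Ideal (UniversalEnvelopingAlgebra k W)) (v : UniversalEnvelopingAlgebra k W)
      (J : Ideal (UniversalEnvelopingAlgebra k S)), (∃ u, u ≠ 0 ∧ u ∈ P) → M.IsMaximal →
      (∀ a, a ∈ P ↔ ∀ x, a * x ∈ M) → v ∉ M → J.IsMaximal → (∀ a, a ∈ J ↔ iotaU S a * v ∈ M) →
      IsPrimitive (restrict k S P) ∧ ∀ a, a ∈ restrict k S P ↔ ∀ x, a * x ∈ J := by
  have hr : ∀ (I : TwoSidedIdeal (UniversalEnvelopingAlgebra k W)) (w), w ∈ restrict k S I ↔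
      iotaU S w ∈ I := fun I w => TwoSidedIdeal.mem_comap _
  have hlift : ∀ P : TwoSidedIdeal (UniversalEnvelopingAlgebra k W), IsPrimeI P →
      IsPrimitive (restrict k S P) → IsPrimitive P := by
    rintro P hP ⟨M, hM, hMP⟩
    exact PRI98.prim_all ⟨e, he⟩ S hS (fun J hJ => LA53.proper ⟨e, he⟩ S hS J hJ) P hP M hM
      (fun a => by rw [← hr, hMP])
  have hex : ∀ Q : TwoSidedIdeal (UniversalEnvelopingAlgebra k S), IsPrimitive Q →
      ∃ P, IsPrimitive P ∧ restrict k S P = Q := by
    intro Q hQ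
    obtain ⟨P, hP, hPQ⟩ := (main ⟨e, he⟩ S hS).2.1.surjOn (IsPrimitive.prime hQ)
    have hPQ' : restrict k S P = Q := hPQ
    exact ⟨P, hlift P hP (by rw [hPQ']; exact hQ), hPQ'⟩
  have huniq : ∀ P₁ P₂, IsPrimeI P₁ → IsPrimeI P₂ → restrict k S P₁ = restrict k S P₂ →
      P₁ = P₂ := fun P₁ P₂ h1 h2 h => (main ⟨e, he⟩ S hS).2.1.injOn h1 h2 h
  have hmax : ∀ P : TwoSidedIdeal (UniversalEnvelopingAlgebra k W), IsCoatom P →
      IsCoatom (restrict k S P) := fun P hP =>
    (LA53.coatom ⟨e, he⟩ S hS P (IsPrimitive.prime (primitive_of_coatom hP))).1.1 hP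
  refine ⟨hlift, fun Q hQ => ⟨hex Q hQ, fun P₁ P₂ h1 h2 e1 e2 =>
    huniq P₁ P₂ h1 h2 (e1.trans e2.symm)⟩, ⟨fun P hP => hP.2, ?_, ?_⟩, ?_, ?_,
    ⟨fun P hP => hmax P hP, ?_, ?_⟩, fun P hP => primitive_of_coatom (hmax P hP), ?_⟩
  · intro P₁ h1 P₂ h2 h
    exact huniq P₁ P₂ (IsPrimitive.prime h1.1) (IsPrimitive.prime h2.1) h
  · intro Q hQ
    obtain ⟨P, hP, hPQ⟩ := hex Q hQ
    exact ⟨P, ⟨hP, by rw [hPQ]; exact hQ⟩, hPQ⟩
  · intro F P hF hP
    constructor
    · intro h w hw
      rw [hr]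
      exact h _ fun P' hP' => (hr P' w).mp (hw P' hP')
    · intro h u hu
      have hPQ : ∀ P' : TwoSidedIdeal (UniversalEnvelopingAlgebra k W), IsPrimeI P' →
          P' = PQ ⟨e, he⟩ S hS (restrict k S P') := by
        intro P' hP'
        obtain ⟨h1, h2⟩ := PQ_spec ⟨e, he⟩ S hS (restrict k S P')
          (prime_restrict ⟨e, he⟩ S hS P' hP')
        refine huniq P' _ hP' h1 ?_
        ext w
        rw [hr, hr, h2, hr]
      rw [hPQ P hP, mem_PQ]
      intro n
      apply h
      intro P' hP'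
      have h1 := hu P' hP'
      rw [hPQ P' (hF P' hP'), mem_PQ] at h1
      exact h1 n
  · refine ⟨?_, ?_, ?_⟩
    · rintro P ⟨M, hM, hP, f, hf, hl⟩
      have hl' : ∀ n : ℤ, (f.sum fun i a => a • UniversalEnvelopingAlgebra.ι k (e (n + i))) ∈ M := by
        intro n
        have h1 := hl n
        have h2 := ev_eq ⟨e, he⟩ n f
        rw [R12.ev_sum] at h2
        rw [h2]
        exact h1
      obtain ⟨h1, h2⟩ := R12.local_prim' ⟨e, he⟩ S hS hM hf hl'
      refine ⟨M.comap (iotaU S), h1, fun a => ?_, f, hf, fun n s _ hs => ?_⟩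
      · rw [restrict, TwoSidedIdeal.mem_comap, hP]
        exact (h2 a).symm
      · rw [Ideal.mem_comap, iotaU_ι, hs]
        exact hl n
    · rintro P₁ ⟨M₁, hM₁, h1, -⟩ P₂ ⟨M₂, hM₂, h2, -⟩ h
      exact huniq P₁ P₂ (IsPrimitive.prime ⟨M₁, hM₁, h1⟩) (IsPrimitive.prime ⟨M₂, hM₂, h2⟩) h
    · rintro Q ⟨M, hM, hQ, f, hf, hl⟩
      have hl' : ∀ h : Polynomial k, PRI65.phi ⟨e, he⟩ S hS (f * h) ∈ M := by
        intro h
        induction h using Polynomial.induction_on' with
        | add p q hp hq => rw [mul_add, map_add]; exact M.add_mem hp hq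
        | monomial j a =>
          have hmem : (f.sum fun i a => a • e (((j : ℤ) - 1) + i)) ∈ S := by
            rw [Polynomial.sum_def]
            refine S.toSubmodule.sum_mem fun i _ => S.toSubmodule.smul_mem _ ?_
            rw [hS]
            exact Submodule.subset_span ⟨_, by show (-1 : ℤ) ≤ (j : ℤ) - 1 + i; omega, rfl⟩
          have h1 := hl ((j : ℤ) - 1) ⟨_, hmem⟩ (by omega) rfl
          have h2 : PRI65.phi ⟨e, he⟩ S hS (f * Polynomial.X ^ j) =
              UniversalEnvelopingAlgebra.ι k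
                (⟨f.sum fun i a => a • e (((j : ℤ) - 1) + i), hmem⟩ : S) := by
            apply (main ⟨e, he⟩ S hS).1
            rw [R12.iota_phi, iotaU_ι, ev_eq]
          rw [← Polynomial.C_mul_X_pow_eq_monomial, mul_left_comm, ← Polynomial.smul_eq_C_mul,
            map_smul, h2, Algebra.smul_def]
          exact M.mul_mem_left _ h1
      obtain ⟨N, hN, ⟨f', hf', hl2⟩, h3⟩ := R12.local_bij ⟨e, he⟩ S hS M hM f hf hl'
      refine ⟨PRI65.annI N, ⟨N, hN, PRI65.mem_annI N, f', hf', fun n => ?_⟩, ?_⟩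
      · have h4 := hl2 n
        rw [ev_eq] at h4
        exact h4
      · ext a
        rw [restrict, TwoSidedIdeal.mem_comap, PRI65.mem_annI, hQ]
        exact (h3 a).symm
  · intro P₁ h1 P₂ h2 h
    exact huniq P₁ P₂ (IsPrimitive.prime (primitive_of_coatom h1))
      (IsPrimitive.prime (primitive_of_coatom h2)) h
  · intro Q hQ
    obtain ⟨P, hP, hPQ⟩ := hex Q (primitive_of_coatom hQ)
    refine ⟨P, (LA53.coatom ⟨e, he⟩ S hS P (IsPrimitive.prime hP)).1.2 ?_, hPQ⟩
    change IsCoatom (restrict k S P)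
    rw [hPQ]
    exact hQ
  · rintro P M v J ⟨u, hu0, hu⟩ hM hP hv hJ hJv
    have h1 := PRI65.soc_gen ⟨e, he⟩ S hS M hM ⟨u, hu0, (hP u).1 hu⟩ v hv J hJ hJv
    have h2 : ∀ a, a ∈ restrict k S P ↔ ∀ x, a * x ∈ J := by
      intro a
      rw [restrict, TwoSidedIdeal.mem_comap, hP]
      exact (h1 a).symm
    exact ⟨⟨J, hJ, h2⟩, h2⟩

end Pool.Agent.Results.MP_fc828e_al.PrimitiveLift
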